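import Mathlib
/-!
# Many disjoint pairs with sums in a short window
-/

set_option autoImplicit false

open Finset

namespace Pool.Agent.Y940.NP

/-- greedy matching in a bipartite graph -/
theorem matching (D : ℕ) (hD : 1 ≤ D) : ∀ (k : ℕ) (E : Finset (ℕ × ℕ)),
    (∀ v, (E.filter (fun p => p.1 = v)).card ≤ D) →
    (∀ v, (E.filter (fun p => p.2 = v)).card ≤ D) → 2 * D * k ≤ E.card →
    ∃ P ⊆ E, P.card = k ∧ ∀ p ∈ P, ∀ q ∈ P, p ≠ q → p.1 ≠ q.1 ∧ p.2 ≠ q.2 := by
  classical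
  intro k
  induction k with
  | zero =>
    intro E _ _ _
    exact ⟨∅, empty_subset _, card_empty, by simp⟩
  | succ k ih =>
    intro E h1 h2 h3
    have hne : E.Nonempty := by
      rw [← card_pos]
      have : 0 < 2 * D * (k + 1) := by positivity
      omega
    obtain ⟨p, hp⟩ := hne
    set E' := E.filter (fun q => q.1 ≠ p.1 ∧ q.2 ≠ p.2) with hE'
    have hsub : E' ⊆ E := filter_subset _ _
    have hcard : E.card ≤ E'.card + 2 * D := by
      have : E ⊆ E' ∪ (E.filter (fun q => q.1 = p.1) ∪ E.filter (fun q => q.2 = p.2)) := by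
        intro q hq
        rw [mem_union, mem_union, hE', mem_filter, mem_filter, mem_filter]
        by_cases a1 : q.1 = p.1
        · exact Or.inr (Or.inl ⟨hq, a1⟩)
        · by_cases a2 : q.2 = p.2
          · exact Or.inr (Or.inr ⟨hq, a2⟩)
          · exact Or.inl ⟨hq, a1, a2⟩
      calc E.card ≤ _ := card_le_card this
        _ ≤ E'.card + (E.filter (fun q => q.1 = p.1) ∪ E.filter (fun q => q.2 = p.2)).card :=
            card_union_le _ _
        _ ≤ E'.card + (D + D) := by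
            gcongr
            exact (card_union_le _ _).trans (add_le_add (h1 _) (h2 _))
        _ = E'.card + 2 * D := by ring
    obtain ⟨P, hPE, hPk, hPd⟩ := ih E'
      (fun v => (card_le_card (filter_subset_filter _ hsub)).trans (h1 v))
      (fun v => (card_le_card (filter_subset_filter _ hsub)).trans (h2 v)) (by
        have : 2 * D * (k + 1) = 2 * D * k + 2 * D := by ring
        omega)
    have hpP : p ∉ P := by
      intro h
      have := (mem_filter.1 (hPE h)).2.1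
      exact this rfl
    refine ⟨insert p P, ?_, ?_, ?_⟩
    · intro q hq
      rcases mem_insert.1 hq with rfl | hq
      · exact hp
      · exact hsub (hPE hq)
    · rw [card_insert_of_notMem hpP, hPk]
    · intro q hq r hr hqr
      rcases mem_insert.1 hq with rfl | hq'
      · rcases mem_insert.1 hr with rfl | hr'
        · exact absurd rfl hqr
        · have := (mem_filter.1 (hPE hr')).2
          exact ⟨this.1.symm, this.2.symm⟩
      · rcases mem_insert.1 hr with rfl | hr'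
        · exact (mem_filter.1 (hPE hq')).2
        · exact hPd q hq' r hr' hqr

/-- the data we are looking for: `k` disjoint pairs of indices in `S` whose sums lie in the window
`[n - 3h, n - h]` -/
def Good (α : ℕ → ℕ) (h k : ℕ) (S : Finset ℕ) (n : ℕ) (P : Finset (ℕ × ℕ)) : Prop :=
  P.card = k ∧ (∀ p ∈ P, p.1 ∈ S ∧ p.2 ∈ S ∧ p.1 ≠ p.2 ∧ α p.1 + α p.2 + h ≤ n ∧
    n ≤ α p.1 + α p.2 + 3 * h) ∧
  ∀ p ∈ P, ∀ q ∈ P, p ≠ q → p.1 ≠ q.1 ∧ p.2 ≠ q.2 ∧ p.1 ≠ q.2 ∧ p.2 ≠ q.1

/-- a cluster gives many pairs -/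
theorem good_of_cluster (α : ℕ → ℕ) (h k : ℕ) (S : Finset ℕ) (hk : 1 ≤ k) (J : Finset ℕ)
    (hJ : 2 * k ≤ J.card) (hi : J ⊆ S)
    (hc : ∀ i ∈ J, ∀ j ∈ J, α i < α j + h) : ∃ n P, Good α h k S n P := by
  classical
  have hne : J.Nonempty := by rw [← card_pos]; omega
  obtain ⟨j₀, hj₀, hmin⟩ := exists_min_image J α hne
  obtain ⟨J', hJ'J, hJ'c⟩ := exists_subset_card_eq hJ
  set e := J'.orderEmbOfFin hJ'c with he
  have heJ : ∀ s, e s ∈ J := fun s => hJ'J (orderEmbOfFin_mem J' hJ'c s)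
  set f : Fin k → ℕ × ℕ := fun s =>
    (e ⟨2 * s.1, by have := s.2; omega⟩, e ⟨2 * s.1 + 1, by have := s.2; omega⟩) with hf
  have hinj : Function.Injective f := by
    intro s t hst
    rw [hf] at hst
    simp only [Prod.mk.injEq] at hst
    have := e.injective hst.1
    rw [Fin.mk.injEq] at this
    exact Fin.ext (by omega)
  refine ⟨2 * α j₀ + 3 * h, univ.image f, ?_, ?_, ?_⟩
  · rw [card_image_of_injective _ hinj, card_univ, Fintype.card_fin]
  · intro p hp
    obtain ⟨s, _, rfl⟩ := mem_image.1 hp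
    rw [hf]
    simp only
    have a1 := heJ ⟨2 * s.1, by have := s.2; omega⟩
    have a2 := heJ ⟨2 * s.1 + 1, by have := s.2; omega⟩
    refine ⟨hi a1, hi a2, ?_, ?_, ?_⟩
    · intro h
      have := e.injective h
      rw [Fin.mk.injEq] at this
      omega
    · have := hc _ a1 _ hj₀
      have := hc _ a2 _ hj₀
      omega
    · have := hmin _ a1
      have := hmin _ a2
      omega
  · intro p hp q hq hpq
    obtain ⟨s, _, rfl⟩ := mem_image.1 hp
    obtain ⟨t, _, rfl⟩ := mem_image.1 hq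
    have hst : s ≠ t := by
      rintro rfl
      exact hpq rfl
    have hst' : s.1 ≠ t.1 := fun h => hst (Fin.ext h)
    rw [hf]
    simp only
    refine ⟨fun h => ?_, fun h => ?_, fun h => ?_, fun h => ?_⟩
    all_goals
      have := e.injective h
      rw [Fin.mk.injEq] at this
      omega

/-- **Windows.** -/
theorem exists_good (α : ℕ → ℕ) (C : ℕ) (hC : ∀ i, α i ≤ C * (i + 1) ^ 2) (k : ℕ) (hk : 1 ≤ k)
    (I : ℕ) (hIk : 6 * k ≤ I) (S : Finset ℕ) (hSI : ∀ i ∈ S, I ≤ i ∧ i < 3 * I)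
    (hS1 : I ≤ 2 * (S.filter (fun i => i < 2 * I)).card)
    (hS2 : I ≤ 2 * (S.filter (fun i => 2 * I ≤ i)).card) :
    ∃ n P, Good α (576 * (C + 1) * k ^ 2) k S n P := by
  classical
  set h := 576 * (C + 1) * k ^ 2 with hh
  have hh1 : 1 ≤ h := by rw [hh]; exact Nat.one_le_iff_ne_zero.2 (by positivity)
  by_cases hcl : ∃ J : Finset ℕ, 2 * k ≤ J.card ∧ J ⊆ S ∧
      ∀ i ∈ J, ∀ j ∈ J, α i < α j + h
  · obtain ⟨J, h1, h2, h3⟩ := hcl
    exact good_of_cluster α h k S hk J h1 h2 h3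
  push Not at hcl
  set A₁ := S.filter (fun i => i < 2 * I) with hA₁
  set A₂ := S.filter (fun i => 2 * I ≤ i) with hA₂
  -- windows
  set W := 18 * C * I ^ 2 / h + 1 with hW
  have hmem : ∀ p ∈ A₁ ×ˢ A₂, p.1 ∈ S ∧ p.2 ∈ S ∧ I ≤ p.1 ∧ p.1 < 2 * I ∧ 2 * I ≤ p.2 ∧
      p.2 < 3 * I := by
    intro p hp
    rw [mem_product, hA₁, hA₂, mem_filter, mem_filter] at hp
    have a1 := hSI _ hp.1.1
    have a2 := hSI _ hp.2.1
    exact ⟨hp.1.1, hp.2.1, a1.1, hp.1.2, hp.2.2, a2.2⟩
  have hmaps : ∀ p ∈ A₁ ×ˢ A₂, (α p.1 + α p.2) / h ∈ range W := by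
    intro p hp
    have hp := hmem p hp
    rw [mem_range, hW, Nat.lt_succ_iff]
    refine Nat.div_le_div_right ?_
    have e1 : α p.1 ≤ C * (3 * I) ^ 2 :=
      (hC p.1).trans (Nat.mul_le_mul_left _ (Nat.pow_le_pow_left (by omega) 2))
    have e2 : α p.2 ≤ C * (3 * I) ^ 2 :=
      (hC p.2).trans (Nat.mul_le_mul_left _ (Nat.pow_le_pow_left (by omega) 2))
    calc α p.1 + α p.2 ≤ C * (3 * I) ^ 2 + C * (3 * I) ^ 2 := add_le_add e1 e2
      _ = 18 * C * I ^ 2 := by ring
  have hcount : (range W).card * (4 * k ^ 2) < (A₁ ×ˢ A₂).card := by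
    rw [card_range, card_product]
    have e0 : I * I ≤ 4 * (A₁.card * A₂.card) := by
      calc I * I ≤ (2 * A₁.card) * (2 * A₂.card) := Nat.mul_le_mul hS1 hS2
        _ = 4 * (A₁.card * A₂.card) := by ring
    have e4 : (18 * C * I ^ 2 / h) * (32 * k ^ 2) ≤ I * I := by
      by_contra hcon
      push Not at hcon
      have e3 : 18 * C * I ^ 2 / h * h ≤ 18 * C * I ^ 2 := Nat.div_mul_le_self _ _
      have e5 : I * I * (18 * (C + 1)) < 18 * C * I ^ 2 / h * h := by
        calc I * I * (18 * (C + 1)) < (18 * C * I ^ 2 / h) * (32 * k ^ 2) * (18 * (C + 1)) :=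
              Nat.mul_lt_mul_of_pos_right hcon (by positivity)
          _ = 18 * C * I ^ 2 / h * h := by rw [hh]; ring
      nlinarith
    have e5 : W * (4 * k ^ 2) = (18 * C * I ^ 2 / h) * (4 * k ^ 2) + 4 * k ^ 2 := by
      rw [hW]; ring
    rw [e5]
    nlinarith
  obtain ⟨q, hq, hqc⟩ := exists_lt_card_fiber_of_mul_lt_card_of_maps_to hmaps hcount
  set E := (A₁ ×ˢ A₂).filter (fun p => (α p.1 + α p.2) / h = q) with hE
  have hES : ∀ p ∈ E, p.1 ∈ S ∧ p.2 ∈ S := by
    intro p hp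
    have := hmem p (mem_filter.1 hp).1
    exact ⟨this.1, this.2.1⟩
  have hEm : ∀ p ∈ E, I ≤ p.1 ∧ p.1 < 2 * I ∧ 2 * I ≤ p.2 ∧ p.2 < 3 * I ∧
      q * h ≤ α p.1 + α p.2 ∧ α p.1 + α p.2 < q * h + h := by
    intro p hp
    have hp' := hmem p (mem_filter.1 hp).1
    have a5 := (mem_filter.1 hp).2
    refine ⟨hp'.2.2.1, hp'.2.2.2.1, hp'.2.2.2.2.1, hp'.2.2.2.2.2, ?_, ?_⟩
    · rw [← a5]; exact Nat.div_mul_le_self _ _
    · rw [← a5]
      have := Nat.lt_div_mul_add (a := α p.1 + α p.2) hh1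
      exact this
  have hdeg1 : ∀ v, (E.filter (fun p => p.1 = v)).card ≤ 2 * k := by
    intro v
    by_contra hcon
    push Not at hcon
    set F := E.filter (fun p => p.1 = v) with hF
    have hinj : Set.InjOn (fun p : ℕ × ℕ => p.2) (F : Set (ℕ × ℕ)) := by
      intro p hp r hr hpr
      have a1 := (mem_filter.1 (mem_coe.1 hp)).2
      have a2 := (mem_filter.1 (mem_coe.1 hr)).2
      exact Prod.ext (a1.trans a2.symm) hpr
    have := hcl (F.image (fun p => p.2)) (by rw [card_image_of_injOn hinj]; omega) (by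
      intro j hj
      obtain ⟨p, hp, rfl⟩ := mem_image.1 hj
      exact (hES p (mem_filter.1 hp).1).2)
    obtain ⟨i, hi, j, hj, hij⟩ := this
    obtain ⟨p, hp, rfl⟩ := mem_image.1 hi
    obtain ⟨r, hr, rfl⟩ := mem_image.1 hj
    have a1 := hEm p (mem_filter.1 hp).1
    have a2 := hEm r (mem_filter.1 hr).1
    have a3 := (mem_filter.1 hp).2
    have a4 := (mem_filter.1 hr).2
    rw [a3] at a1
    rw [a4] at a2
    omega
  have hdeg2 : ∀ v, (E.filter (fun p => p.2 = v)).card ≤ 2 * k := by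
    intro v
    by_contra hcon
    push Not at hcon
    set F := E.filter (fun p => p.2 = v) with hF
    have hinj : Set.InjOn (fun p : ℕ × ℕ => p.1) (F : Set (ℕ × ℕ)) := by
      intro p hp r hr hpr
      have a1 := (mem_filter.1 (mem_coe.1 hp)).2
      have a2 := (mem_filter.1 (mem_coe.1 hr)).2
      exact Prod.ext hpr (a1.trans a2.symm)
    have := hcl (F.image (fun p => p.1)) (by rw [card_image_of_injOn hinj]; omega) (by
      intro j hj
      obtain ⟨p, hp, rfl⟩ := mem_image.1 hj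
      exact (hES p (mem_filter.1 hp).1).1)
    obtain ⟨i, hi, j, hj, hij⟩ := this
    obtain ⟨p, hp, rfl⟩ := mem_image.1 hi
    obtain ⟨r, hr, rfl⟩ := mem_image.1 hj
    have a1 := hEm p (mem_filter.1 hp).1
    have a2 := hEm r (mem_filter.1 hr).1
    have a3 := (mem_filter.1 hp).2
    have a4 := (mem_filter.1 hr).2
    rw [a3] at a1
    rw [a4] at a2
    omega
  obtain ⟨P, hPE, hPk, hPd⟩ := matching (2 * k) (by omega) k E hdeg1 hdeg2 (by
    have : 2 * (2 * k) * k = 4 * k ^ 2 := by ring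
    omega)
  refine ⟨q * h + 3 * h, P, hPk, ?_, ?_⟩
  · intro p hp
    have := hEm p (hPE hp)
    have hs := hES p (hPE hp)
    refine ⟨hs.1, hs.2, by omega, by omega, by omega⟩
  · intro p hp r hr hpr
    have a1 := hEm p (hPE hp)
    have a2 := hEm r (hPE hr)
    have a3 := hPd p hp r hr hpr
    exact ⟨a3.1, a3.2, by omega, by omega⟩

/-- `r_A(n)` -/
noncomputable def rep (A : Set ℕ) (n : ℕ) : ℕ :=
  {p : ℕ × ℕ | p.1 ∈ A ∧ p.2 ∈ A ∧ p.1 + p.2 = n}.ncard

theorem rep_finite (A : Set ℕ) (n : ℕ) :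
    {p : ℕ × ℕ | p.1 ∈ A ∧ p.2 ∈ A ∧ p.1 + p.2 = n}.Finite := by
  refine (Set.finite_Iic ((n, n) : ℕ × ℕ)).subset ?_
  rintro ⟨a, b⟩ ⟨_, _, h⟩
  simp only at h
  exact ⟨by show a ≤ n; omega, by show b ≤ n; omega⟩

/-- choice of the perturbations -/
theorem exists_shift (α : ℕ → ℕ) (h k : ℕ) (S : Finset ℕ) (n : ℕ) (hk : 2 * k ≤ h)
    (P : Finset (ℕ × ℕ)) (hP : Good α h k S n P) : ∃ ζ : ℕ → ℕ,
    (∀ p ∈ P, ζ p.1 ≤ 3 * h ∧ ζ p.2 ≤ 3 * h ∧ α p.1 + ζ p.1 + (α p.2 + ζ p.2) = n ∧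
      2 * (α p.1 + ζ p.1) ≠ n) ∧
    ∀ p ∈ P, ∀ q ∈ P, p ≠ q → α p.1 + ζ p.1 ≠ α q.1 + ζ q.1 ∧
      α p.1 + ζ p.1 + (α q.1 + ζ q.1) ≠ n := by
  classical
  obtain ⟨hPk, hP1, hP2⟩ := hP
  have main : ∀ Q : Finset (ℕ × ℕ), Q ⊆ P → ∃ ζ : ℕ → ℕ,
    (∀ p ∈ Q, ζ p.1 ≤ 3 * h ∧ ζ p.2 ≤ 3 * h ∧ α p.1 + ζ p.1 + (α p.2 + ζ p.2) = n ∧
      2 * (α p.1 + ζ p.1) ≠ n) ∧
    ∀ p ∈ Q, ∀ q ∈ Q, p ≠ q → α p.1 + ζ p.1 ≠ α q.1 + ζ q.1 ∧
      α p.1 + ζ p.1 + (α q.1 + ζ q.1) ≠ n := by
    intro Q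
    induction Q using Finset.induction_on with
    | empty => intro _; exact ⟨fun _ => 0, by simp, by simp⟩
    | insert p Q hpQ ih =>
      intro hsub
      have hQP : Q ⊆ P := (subset_insert p Q).trans hsub
      have hpP : p ∈ P := hsub (mem_insert_self p Q)
      obtain ⟨ζ, hζ1, hζ2⟩ := ih hQP
      obtain ⟨b1, b2, b3, b4, b5⟩ := hP1 p hpP
      -- forbidden values
      set t := n - (α p.1 + α p.2) with ht
      set bad : Finset ℕ := insert (n / 2) (Q.image (fun q => α q.1 + ζ q.1) ∪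
        Q.image (fun q => n - (α q.1 + ζ q.1))) with hbad
      have hbadc : bad.card < (Icc (α p.1) (α p.1 + t)).card := by
        have c1 : bad.card ≤ 2 * Q.card + 1 := by
          rw [hbad]
          refine (card_insert_le _ _).trans ?_
          have := (card_union_le (Q.image (fun q => α q.1 + ζ q.1))
            (Q.image (fun q => n - (α q.1 + ζ q.1)))).trans
            (add_le_add card_image_le card_image_le)
          omega
        have c2 : Q.card + 1 ≤ k := by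
          rw [← hPk, ← card_insert_of_notMem hpQ]
          exact card_le_card hsub
        rw [Nat.card_Icc]
        omega
      obtain ⟨v, hv, hvb⟩ := exists_mem_notMem_of_card_lt_card hbadc
      rw [mem_Icc] at hv
      rw [hbad, mem_insert, mem_union, mem_image, mem_image] at hvb
      push Not at hvb
      obtain ⟨v1, v2, v3⟩ := hvb
      set ζ' : ℕ → ℕ := Function.update (Function.update ζ p.1 (v - α p.1)) p.2
        (n - v - α p.2) with hζ'
      have z1 : ζ' p.1 = v - α p.1 := by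
        rw [hζ', Function.update_of_ne b3, Function.update_self]
      have z2 : ζ' p.2 = n - v - α p.2 := by rw [hζ', Function.update_self]
      have z3 : ∀ q ∈ Q, ζ' q.1 = ζ q.1 ∧ ζ' q.2 = ζ q.2 := by
        intro q hq
        have hne : p ≠ q := by rintro rfl; exact hpQ hq
        have d := hP2 p hpP q (hQP hq) hne
        rw [hζ']
        refine ⟨?_, ?_⟩
        · rw [Function.update_of_ne d.2.2.2.symm, Function.update_of_ne d.1.symm]
        · rw [Function.update_of_ne d.2.1.symm, Function.update_of_ne d.2.2.1.symm]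
      have zp : α p.1 + ζ' p.1 = v := by rw [z1]; omega
      refine ⟨ζ', ?_, ?_⟩
      · intro q hq
        rcases mem_insert.1 hq with rfl | hq
        · rw [z1, z2]
          refine ⟨by omega, by omega, by omega, ?_⟩
          have : α q.1 + (v - α q.1) = v := by omega
          rw [this]
          omega
        · rw [(z3 q hq).1, (z3 q hq).2]
          exact hζ1 q hq
      · intro q hq r hr hqr
        rcases mem_insert.1 hq with rfl | hq'
        · rcases mem_insert.1 hr with rfl | hr'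
          · exact absurd rfl hqr
          · rw [zp, (z3 r hr').1]
            have d1 := v2 r hr'
            have d2 := v3 r hr'
            have d3 := (hζ1 r hr').2.2.1
            exact ⟨fun h => d1 h.symm, fun h => d2 (by omega)⟩
        · rcases mem_insert.1 hr with rfl | hr'
          · rw [zp, (z3 q hq').1]
            have d1 := v2 q hq'
            have d2 := v3 q hq'
            have d3 := (hζ1 q hq').2.2.1
            exact ⟨fun h => d1 h, fun h => d2 (by omega)⟩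
          · rw [(z3 q hq').1, (z3 r hr').1]
            exact hζ2 q hq' r hr' hqr
  exact main P Subset.rfl

/-- **The pattern.** -/
theorem exists_pattern (α : ℕ → ℕ) (hα : ∀ i, i ≤ α i) (C : ℕ)
    (hC : ∀ i, α i ≤ C * (i + 1) ^ 2) (k : ℕ) (hk : 1 ≤ k)
    (I : ℕ) (hIk : 6 * k ≤ I) (S : Finset ℕ) (hSI : ∀ i ∈ S, I ≤ i ∧ i < 3 * I)
    (hS1 : I ≤ 2 * (S.filter (fun i => i < 2 * I)).card)
    (hS2 : I ≤ 2 * (S.filter (fun i => 2 * I ≤ i)).card) :
    ∃ (J : Finset ℕ) (ζ : ℕ → ℕ) (n : ℕ), I ≤ n ∧ J.card ≤ 2 * k ∧ J ⊆ S ∧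
      (∀ i ∈ J, ζ i ≤ 1728 * (C + 1) * k ^ 2) ∧
      ∀ z : ℕ → ℕ, (∀ i ∈ J, z i = ζ i) →
        2 * k ≤ rep (Set.range fun i => α i + z i) n := by
  classical
  set h := 576 * (C + 1) * k ^ 2 with hh
  obtain ⟨n, P, hP⟩ := exists_good α C hC k hk I hIk S hSI hS1 hS2
  have hkh : 2 * k ≤ h := by rw [hh]; nlinarith [Nat.zero_le C]
  obtain ⟨ζ, hζ1, hζ2⟩ := exists_shift α h k S n hkh P hP
  obtain ⟨hPk, hP1, hP2⟩ := hP
  refine ⟨P.image (fun p => p.1) ∪ P.image (fun p => p.2), ζ, n, ?_, ?_, ?_, ?_, ?_⟩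
  · have : P.Nonempty := by rw [← card_pos]; omega
    obtain ⟨p, hp⟩ := this
    have h1 := hP1 p hp
    have h2 := hα p.1
    have h3 := (hSI _ h1.1).1
    omega
  · refine (card_union_le _ _).trans ?_
    have := add_le_add (card_image_le (s := P) (f := fun p => p.1))
      (card_image_le (s := P) (f := fun p => p.2))
    omega
  · intro i hi
    rw [mem_union, mem_image, mem_image] at hi
    rcases hi with ⟨p, hp, rfl⟩ | ⟨p, hp, rfl⟩
    · exact (hP1 p hp).1
    · exact (hP1 p hp).2.1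
  · intro i hi
    rw [mem_union, mem_image, mem_image] at hi
    have e : 1728 * (C + 1) * k ^ 2 = 3 * h := by rw [hh]; ring
    rw [e]
    rcases hi with ⟨p, hp, rfl⟩ | ⟨p, hp, rfl⟩
    · exact (hζ1 p hp).1
    · exact (hζ1 p hp).2.1
  · intro z hz
    have hz1 : ∀ p ∈ P, z p.1 = ζ p.1 := fun p hp =>
      hz p.1 (mem_union_left _ (mem_image_of_mem _ hp))
    have hz2 : ∀ p ∈ P, z p.2 = ζ p.2 := fun p hp =>
      hz p.2 (mem_union_right _ (mem_image_of_mem _ hp))
    set f : ℕ × ℕ → ℕ × ℕ := fun p => (α p.1 + ζ p.1, α p.2 + ζ p.2) with hf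
    set g : ℕ × ℕ → ℕ × ℕ := fun p => (α p.2 + ζ p.2, α p.1 + ζ p.1) with hg
    have hfinj : Set.InjOn f (P : Set (ℕ × ℕ)) := by
      intro p hp q hq hpq
      by_contra hne
      have := (hζ2 p (mem_coe.1 hp) q (mem_coe.1 hq) hne).1
      rw [hf] at hpq
      simp only [Prod.mk.injEq] at hpq
      exact this hpq.1
    have hginj : Set.InjOn g (P : Set (ℕ × ℕ)) := by
      intro p hp q hq hpq
      by_contra hne
      have := (hζ2 p (mem_coe.1 hp) q (mem_coe.1 hq) hne).1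
      rw [hg] at hpq
      simp only [Prod.mk.injEq] at hpq
      exact this hpq.2
    have hdisj : Disjoint (P.image f) (P.image g) := by
      rw [disjoint_left]
      intro x hx hy
      obtain ⟨p, hp, rfl⟩ := mem_image.1 hx
      obtain ⟨q, hq, hpq⟩ := mem_image.1 hy
      rw [hf, hg] at hpq
      simp only [Prod.mk.injEq] at hpq
      have d1 := (hζ1 p hp).2.2
      have d2 := (hζ1 q hq).2.2
      by_cases hne : p = q
      · subst hne
        omega
      · have := (hζ2 p hp q hq hne).2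
        omega
    have hcard : (P.image f ∪ P.image g).card = 2 * k := by
      rw [card_union_of_disjoint hdisj, card_image_of_injOn hfinj, card_image_of_injOn hginj,
        hPk]
      ring
    rw [← hcard, ← Set.ncard_coe_finset]
    refine Set.ncard_le_ncard ?_ (rep_finite _ _)
    intro x hx
    have hx := mem_coe.1 hx
    rw [mem_union, mem_image, mem_image] at hx
    rcases hx with ⟨p, hp, rfl⟩ | ⟨p, hp, rfl⟩
    · refine ⟨⟨p.1, ?_⟩, ⟨p.2, ?_⟩, ?_⟩
      · simp only [hz1 p hp, hf]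
      · simp only [hz2 p hp, hf]
      · exact (hζ1 p hp).2.2.1
    · refine ⟨⟨p.2, ?_⟩, ⟨p.1, ?_⟩, ?_⟩
      · simp only [hz2 p hp, hg]
      · simp only [hz1 p hp, hg]
      · have := (hζ1 p hp).2.2.1
        simp only [hg]
        omega

/-- many disjoint patterns in a block -/
theorem exists_patterns (α : ℕ → ℕ) (hα : ∀ i, i ≤ α i) (C : ℕ)
    (hC : ∀ i, α i ≤ C * (i + 1) ^ 2) (k : ℕ) (hk : 1 ≤ k) (I : ℕ) (hIk : 6 * k ≤ I) :
    ∃ (J : ℕ → Finset ℕ) (ζ : ℕ → ℕ → ℕ) (n : ℕ → ℕ),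
      (∀ t < I / (4 * k), I ≤ n t ∧ (J t).card ≤ 2 * k ∧ (∀ i ∈ J t, I ≤ i ∧ i < 3 * I) ∧
        (∀ i ∈ J t, ζ t i ≤ 1728 * (C + 1) * k ^ 2) ∧
        ∀ z : ℕ → ℕ, (∀ i ∈ J t, z i = ζ t i) →
          2 * k ≤ rep (Set.range fun i => α i + z i) (n t)) ∧
      ∀ s t, s < t → t < I / (4 * k) → Disjoint (J s) (J t) := by
  classical
  have key : ∀ S : Finset ℕ, ∃ (J : Finset ℕ) (ζ : ℕ → ℕ) (n : ℕ),
      (∀ i ∈ S, I ≤ i ∧ i < 3 * I) →
      I ≤ 2 * (S.filter (fun i => i < 2 * I)).card →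
      I ≤ 2 * (S.filter (fun i => 2 * I ≤ i)).card → I ≤ n ∧ J.card ≤ 2 * k ∧ J ⊆ S ∧
      (∀ i ∈ J, ζ i ≤ 1728 * (C + 1) * k ^ 2) ∧
      ∀ z : ℕ → ℕ, (∀ i ∈ J, z i = ζ i) →
        2 * k ≤ rep (Set.range fun i => α i + z i) n := by
    intro S
    by_cases h1 : ∀ i ∈ S, I ≤ i ∧ i < 3 * I
    · by_cases h2 : I ≤ 2 * (S.filter (fun i => i < 2 * I)).card
      · by_cases h3 : I ≤ 2 * (S.filter (fun i => 2 * I ≤ i)).card
        · obtain ⟨J, ζ, n, h⟩ := exists_pattern α hα C hC k hk I hIk S h1 h2 h3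
          exact ⟨J, ζ, n, fun _ _ _ => h⟩
        · exact ⟨∅, fun _ => 0, 0, fun _ _ h => absurd h h3⟩
      · exact ⟨∅, fun _ => 0, 0, fun _ h => absurd h h2⟩
    · exact ⟨∅, fun _ => 0, 0, fun h => absurd h h1⟩
  choose Jf ζf nf hf using key
  set U : ℕ → Finset ℕ := fun t => Nat.rec ∅ (fun _ U => U ∪ Jf (Ico I (3 * I) \ U)) t with hU
  have hU0 : U 0 = ∅ := rfl
  have hUs : ∀ t, U (t + 1) = U t ∪ Jf (Ico I (3 * I) \ U t) := fun t => rfl
  have hmono : Monotone U := monotone_nat_of_le_succ fun t => by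
    rw [hUs]; exact subset_union_left
  have hcond : ∀ t, t ≤ I / (4 * k) → (U t).card ≤ 2 * k * t ∧ (t < I / (4 * k) →
      I ≤ nf (Ico I (3 * I) \ U t) ∧ (Jf (Ico I (3 * I) \ U t)).card ≤ 2 * k ∧ Jf (Ico I (3 * I) \ U t) ⊆ Ico I (3 * I) \ U t ∧
      (∀ i ∈ Jf (Ico I (3 * I) \ U t), ζf (Ico I (3 * I) \ U t) i ≤ 1728 * (C + 1) * k ^ 2) ∧
      ∀ z : ℕ → ℕ, (∀ i ∈ Jf (Ico I (3 * I) \ U t), z i = ζf (Ico I (3 * I) \ U t) i) →
        2 * k ≤ rep (Set.range fun i => α i + z i) (nf (Ico I (3 * I) \ U t))) := by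
    intro t
    induction t with
    | zero =>
      intro _
      refine ⟨by rw [hU0]; simp, fun ht => ?_⟩
      refine hf _ ?_ ?_ ?_
      · intro i hi
        exact mem_Ico.1 (mem_sdiff.1 hi).1
      · rw [hU0, sdiff_empty]
        have : (Ico I (3 * I)).filter (fun i => i < 2 * I) = Ico I (2 * I) := by
          ext i; simp only [mem_filter, mem_Ico]; omega
        rw [this, Nat.card_Ico]; omega
      · rw [hU0, sdiff_empty]
        have : (Ico I (3 * I)).filter (fun i => 2 * I ≤ i) = Ico (2 * I) (3 * I) := by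
          ext i; simp only [mem_filter, mem_Ico]; omega
        rw [this, Nat.card_Ico]; omega
    | succ t ih =>
      intro ht
      obtain ⟨ih1, ih2⟩ := ih (by omega)
      have ih2 := ih2 (by omega)
      have hc : (U (t + 1)).card ≤ 2 * k * (t + 1) := by
        rw [hUs]
        refine (card_union_le _ _).trans ?_
        have : 2 * k * (t + 1) = 2 * k * t + 2 * k := by ring
        have := ih2.2.1
        omega
      refine ⟨hc, fun ht' => ?_⟩
      have hsmall : 2 * (2 * k * (t + 1)) ≤ I := by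
        have h1 : (t + 1) * (4 * k) ≤ I := by
          rw [← Nat.le_div_iff_mul_le (by omega)]
          exact ht'.le
        have h2 : 2 * (2 * k * (t + 1)) = (t + 1) * (4 * k) := by ring
        omega
      refine hf _ ?_ ?_ ?_
      · intro i hi
        exact mem_Ico.1 (mem_sdiff.1 hi).1
      · have h1 : Ico I (2 * I) \ U (t + 1) ⊆
            (Ico I (3 * I) \ U (t + 1)).filter (fun i => i < 2 * I) := by
          intro i hi
          rw [mem_sdiff, mem_Ico] at hi
          rw [mem_filter, mem_sdiff, mem_Ico]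
          exact ⟨⟨⟨hi.1.1, by omega⟩, hi.2⟩, hi.1.2⟩
        have h2 := card_le_card h1
        have h3 := le_card_sdiff (U (t + 1)) (Ico I (2 * I))
        rw [Nat.card_Ico] at h3
        omega
      · have h1 : Ico (2 * I) (3 * I) \ U (t + 1) ⊆
            (Ico I (3 * I) \ U (t + 1)).filter (fun i => 2 * I ≤ i) := by
          intro i hi
          rw [mem_sdiff, mem_Ico] at hi
          rw [mem_filter, mem_sdiff, mem_Ico]
          exact ⟨⟨⟨by omega, hi.1.2⟩, hi.2⟩, hi.1.1⟩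
        have h2 := card_le_card h1
        have h3 := le_card_sdiff (U (t + 1)) (Ico (2 * I) (3 * I))
        rw [Nat.card_Ico] at h3
        omega
  refine ⟨fun t => Jf (Ico I (3 * I) \ U t), fun t => ζf (Ico I (3 * I) \ U t),
    fun t => nf (Ico I (3 * I) \ U t), ?_, ?_⟩
  · intro t ht
    obtain ⟨h0, h1, h2, h3, h4⟩ := (hcond t ht.le).2 ht
    exact ⟨h0, h1, fun i hi => mem_Ico.1 (mem_sdiff.1 (h2 hi)).1, h3, h4⟩
  · intro s t hst ht
    obtain ⟨_, _, h2, _, _⟩ := (hcond t ht.le).2 ht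
    rw [disjoint_left]
    intro i hi hj
    have h5 := (mem_sdiff.1 (h2 hj)).2
    have h6 : i ∈ U (s + 1) := by
      rw [hUs]; exact mem_union_right _ hi
    exact h5 (hmono (Nat.succ_le_of_lt hst) h6)

end Pool.Agent.Y940.NP
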