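import Mathlib
import Pool.Agent.Y940.NP.Windows
/-!
# Random perturbations
-/

set_option autoImplicit false

open Finset Filter MeasureTheory ProbabilityTheory

namespace Pool.Agent.Y940.NP

variable {Ω : Type} [MeasurableSpace Ω] {μ : Measure Ω}

/-- finitely many disjoint patterns: the probability that none of them occurs -/
theorem no_pattern [IsProbabilityMeasure μ] (Z : ℕ → Ω → ℕ) (hZ : ∀ i, Measurable (Z i))
    (hind : iIndepFun Z μ) (T : ℕ) (J : ℕ → Finset ℕ) (ζ : ℕ → ℕ → ℕ)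
    (hJ : ∀ s t, s < t → t < T → Disjoint (J s) (J t)) (p : ℝ)
    (hp : ∀ t < T, p ≤ ∏ i ∈ J t, μ.real (Z i ⁻¹' {ζ t i})) :
    μ.real {ω | ∀ t < T, ¬ ∀ i ∈ J t, Z i ω = ζ t i} ≤ Real.exp (-(p * T)) := by
  classical
  have huniq : ∀ s t : Fin T, ∀ i, i ∈ J s → i ∈ J t → s = t := by
    intro s t i hs ht
    rcases lt_trichotomy s t with h | h | h
    · exact absurd ht (disjoint_left.1 (hJ s t h t.2) hs)
    · exact h
    · exact absurd hs (disjoint_left.1 (hJ t s h s.2) ht)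
  set η : ℕ → ℕ := fun i => if h : ∃ t : Fin T, i ∈ J t then ζ h.choose i else 0 with hη
  have hηeq : ∀ t : Fin T, ∀ i ∈ J t, η i = ζ t i := by
    intro t i hi
    have h : ∃ t : Fin T, i ∈ J t := ⟨t, hi⟩
    rw [hη]
    simp only
    rw [dif_pos h, huniq _ _ i h.choose_spec hi]
  set E : Fin T → Set Ω := fun t => ⋂ i ∈ J t, Z i ⁻¹' {η i} with hE
  have hmeas1 : ∀ i, MeasurableSet (Z i ⁻¹' {η i}) := fun i => hZ i (measurableSet_singleton _)
  have hEm : ∀ t, MeasurableSet (E t) := fun t =>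
    Finset.measurableSet_biInter _ fun i _ => hmeas1 i
  have hprod : ∀ S : Finset ℕ, μ (⋂ i ∈ S, Z i ⁻¹' {η i}) = ∏ i ∈ S, μ (Z i ⁻¹' {η i}) := by
    intro S
    exact hind.measure_inter_preimage_eq_mul S (sets := fun i => {η i})
      fun i _ => measurableSet_singleton _
  have hindE : iIndepSet E μ := by
    rw [iIndepSet_iff_meas_biInter hEm]
    intro T'
    have h1 : ⋂ t ∈ T', E t = ⋂ i ∈ T'.biUnion fun t => J t, Z i ⁻¹' {η i} := by
      ext ω
      simp only [hE, Set.mem_iInter, mem_biUnion]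
      constructor
      · rintro h i ⟨t, ht, hi⟩
        exact h t ht i hi
      · intro h t ht i hi
        exact h i ⟨t, ht, hi⟩
    rw [h1, hprod, prod_biUnion]
    · refine prod_congr rfl fun t _ => ?_
      rw [hE]
      simp only
      rw [hprod]
    · intro s _ t _ hst
      rw [Function.onFun, disjoint_left]
      intro i hs ht
      exact hst (huniq s t i hs ht)
  have hcompl : μ (⋂ t ∈ (univ : Finset (Fin T)), (E t)ᶜ) = ∏ t, μ (E t)ᶜ := by
    refine iIndep.meas_biInter hindE fun t _ => ?_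
    exact (MeasurableSpace.measurableSet_generateFrom (Set.mem_singleton _)).compl
  have hset : {ω | ∀ t < T, ¬ ∀ i ∈ J t, Z i ω = ζ t i} =
      ⋂ t ∈ (univ : Finset (Fin T)), (E t)ᶜ := by
    ext ω
    simp only [Set.mem_iInter, mem_univ, forall_true_left, Set.mem_compl_iff, hE,
      Set.mem_preimage, Set.mem_singleton_iff]
    constructor
    · intro h t h1
      refine h t t.2 fun i hi => ?_
      rw [h1 i hi, hηeq t i hi]
    · intro h t ht h1
      refine h ⟨t, ht⟩ fun i hi => ?_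
      rw [h1 i hi, hηeq ⟨t, ht⟩ i hi]
  have hreal : μ.real {ω | ∀ t < T, ¬ ∀ i ∈ J t, Z i ω = ζ t i} =
      ∏ t : Fin T, μ.real (E t)ᶜ := by
    rw [hset, measureReal_def, hcompl, ENNReal.toReal_prod]
    rfl
  rw [hreal]
  calc ∏ t : Fin T, μ.real (E t)ᶜ ≤ ∏ t : Fin T, Real.exp (-p) := by
        refine prod_le_prod (fun _ _ => measureReal_nonneg) fun t _ => ?_
        rw [probReal_compl_eq_one_sub (hEm t)]
        have h1 : p ≤ μ.real (E t) := by
          refine (hp t t.2).trans (le_of_eq ?_)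
          rw [hE]
          simp only
          rw [measureReal_def, hprod, ENNReal.toReal_prod]
          refine prod_congr rfl fun i hi => ?_
          rw [hηeq t i hi]
          rfl
        have h2 := Real.add_one_le_exp (-p)
        linarith
    _ = Real.exp (-(p * T)) := by
        rw [prod_const, card_univ, Fintype.card_fin, ← Real.exp_nat_mul]
        congr 1
        ring

/-- a set with `α i ≤ C (i + 1)²` after a random perturbation -/
theorem perturbed [IsProbabilityMeasure μ] (Z : ℕ → Ω → ℕ) (hZ : ∀ i, Measurable (Z i))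
    (hind : iIndepFun Z μ) (α : ℕ → ℕ) (hα : StrictMono α) (C : ℕ)
    (hC : ∀ i, α i ≤ C * (i + 1) ^ 2) (k : ℕ) (hk : 1 ≤ k)
    (hpr : ∀ᶠ i : ℕ in atTop, ∀ z ≤ 1728 * (C + 1) * k ^ 2,
      (i : ℝ) ^ (-(1 / (8 * k) : ℝ)) ≤ μ.real {ω | Z i ω = z}) :
    ∀ᵐ ω ∂μ, ∀ᶠ m : ℕ in atTop, ∃ n ≥ m, 2 * k ≤ rep (Set.range fun i => α i + Z i ω) n := by
  obtain ⟨i₁, hi₁⟩ := eventually_atTop.1 hpr
  have hk' : (1 : ℝ) ≤ k := by exact_mod_cast hk
  have hx : ∀ I : ℕ, ∃ (J : ℕ → Finset ℕ) (ζ : ℕ → ℕ → ℕ) (n : ℕ → ℕ), 6 * k ≤ I →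
      (∀ t < I / (4 * k), I ≤ n t ∧ (J t).card ≤ 2 * k ∧ (∀ i ∈ J t, I ≤ i ∧ i < 3 * I) ∧
        (∀ i ∈ J t, ζ t i ≤ 1728 * (C + 1) * k ^ 2) ∧
        ∀ z : ℕ → ℕ, (∀ i ∈ J t, z i = ζ t i) →
          2 * k ≤ rep (Set.range fun i => α i + z i) (n t)) ∧
      ∀ s t, s < t → t < I / (4 * k) → Disjoint (J s) (J t) := by
    intro I
    by_cases hI : 6 * k ≤ I
    · obtain ⟨J, ζ, n, h⟩ := exists_patterns α (fun i => hα.le_apply) C hC k hk I hI
      exact ⟨J, ζ, n, fun _ => h⟩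
    · exact ⟨fun _ => ∅, fun _ _ => 0, fun _ => 0, fun h => absurd h hI⟩
  choose J ζ n hJ using hx
  set bad : ℕ → Set Ω := fun I => {ω | ∀ t < I / (4 * k), ¬ ∀ i ∈ J I t, Z i ω = ζ I t i}
    with hbad
  -- a lower bound for large `I`
  have hpow : Tendsto (fun N : ℕ => (N : ℝ) ^ (1 / 4 : ℝ)) atTop atTop :=
    (tendsto_rpow_atTop (by norm_num)).comp tendsto_natCast_atTop_atTop
  obtain ⟨i₂, hi₂⟩ := eventually_atTop.1 (hpow.eventually_ge_atTop (24 * (k : ℝ)))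
  set i₀ := max (max i₁ i₂) (8 * k) with hi₀
  have hbound : ∀ I, i₀ ≤ I → μ (bad I) ≤ ENNReal.ofReal (24 / (I : ℝ) ^ 2) := by
    intro I hI
    have hI1 : i₁ ≤ I := (le_max_left _ _).trans ((le_max_left _ _).trans hI)
    have hI2 : i₂ ≤ I := (le_max_right _ _).trans ((le_max_left _ _).trans hI)
    have hI3 : 8 * k ≤ I := (le_max_right _ _).trans hI
    have hI0 : (0 : ℝ) < I := by
      have : 0 < I := by omega
      exact_mod_cast this
    obtain ⟨hJ1, hJ2⟩ := hJ I (by omega)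
    set T := I / (4 * k) with hT
    have hTlow : (I : ℝ) / (8 * k) ≤ T := by
      have h1 : I < 4 * k * (T + 1) := Nat.lt_mul_div_succ I (by omega)
      have h2 : (I : ℝ) < 4 * k * (T + 1) := by exact_mod_cast h1
      have h3 : 2 ≤ T := by
        rw [hT, Nat.le_div_iff_mul_le (by omega)]
        linarith
      have h4 : (2 : ℝ) ≤ T := by exact_mod_cast h3
      rw [div_le_iff₀ (by positivity)]
      nlinarith
    have hp : ∀ t < T, (3 * I : ℝ) ^ (-(1 / 4) : ℝ) ≤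
        ∏ i ∈ J I t, μ.real (Z i ⁻¹' {ζ I t i}) := by
      intro t ht
      obtain ⟨_, h1, h2, h3, _⟩ := hJ1 t ht
      have h4 : ∀ i ∈ J I t, (3 * I : ℝ) ^ (-(1 / (8 * k)) : ℝ) ≤
          μ.real (Z i ⁻¹' {ζ I t i}) := by
        intro i hi
        refine le_trans ?_ (hi₁ i (hI1.trans (h2 i hi).1) _ (h3 i hi))
        have h5 : (0 : ℝ) < i := by
          have : 0 < i := by have := (h2 i hi).1; omega
          exact_mod_cast this
        refine Real.rpow_le_rpow_of_nonpos h5 ?_ (by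
          rw [Left.neg_nonpos_iff]; positivity)
        exact_mod_cast (h2 i hi).2.le
      have h6 : (3 * I : ℝ) ^ (-(1 / (8 * k)) : ℝ) ≤ 1 := by
        refine Real.rpow_le_one_of_one_le_of_nonpos ?_ (by
          rw [Left.neg_nonpos_iff]; positivity)
        have : (1 : ℝ) ≤ I := by exact_mod_cast (by omega : 1 ≤ I)
        linarith
      have h7 : (0 : ℝ) ≤ (3 * I : ℝ) ^ (-(1 / (8 * k)) : ℝ) := by positivity
      calc (3 * I : ℝ) ^ (-(1 / 4) : ℝ)
          = ((3 * I : ℝ) ^ (-(1 / (8 * k)) : ℝ)) ^ (2 * k) := by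
            rw [← Real.rpow_natCast, ← Real.rpow_mul (by positivity)]
            congr 1
            push_cast
            field_simp
            norm_num
        _ ≤ ((3 * I : ℝ) ^ (-(1 / (8 * k)) : ℝ)) ^ (J I t).card :=
            pow_le_pow_of_le_one h7 h6 h1
        _ = ∏ i ∈ J I t, (3 * I : ℝ) ^ (-(1 / (8 * k)) : ℝ) := by rw [prod_const]
        _ ≤ _ := prod_le_prod (fun _ _ => h7) h4
    have h1 := no_pattern Z hZ hind T (J I) (ζ I) hJ2 _ hp
    -- the exponent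
    have h2 : Real.sqrt I ≤ (3 * I : ℝ) ^ (-(1 / 4) : ℝ) * T := by
      have h3 : (3 * I : ℝ) ^ (-(1 / 4) : ℝ) = 1 / (3 * I : ℝ) ^ (1 / 4 : ℝ) := by
        rw [Real.rpow_neg (by positivity), inv_eq_one_div]
      have h4 : (3 * I : ℝ) ^ (1 / 4 : ℝ) ≤ 3 * (I : ℝ) ^ (1 / 4 : ℝ) := by
        rw [Real.mul_rpow (by norm_num) (by positivity)]
        gcongr
        calc (3 : ℝ) ^ (1 / 4 : ℝ) ≤ (3 : ℝ) ^ (1 : ℝ) :=
              Real.rpow_le_rpow_of_exponent_le (by norm_num) (by norm_num)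
          _ = 3 := Real.rpow_one 3
      have h5 : 24 * (k : ℝ) ≤ (I : ℝ) ^ (1 / 4 : ℝ) := hi₂ I hI2
      have h6 : (I : ℝ) = Real.sqrt I * ((I : ℝ) ^ (1 / 4 : ℝ) * (I : ℝ) ^ (1 / 4 : ℝ)) := by
        rw [Real.sqrt_eq_rpow, ← Real.rpow_add hI0, ← Real.rpow_add hI0]
        norm_num
      have hq : (0 : ℝ) < (I : ℝ) ^ (1 / 4 : ℝ) := by positivity
      rw [h3, div_mul_eq_mul_div, one_mul, le_div_iff₀ (by positivity)]
      refine le_trans ?_ hTlow
      rw [le_div_iff₀ (by positivity)]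
      calc Real.sqrt I * (3 * I : ℝ) ^ (1 / 4 : ℝ) * (8 * k)
          ≤ Real.sqrt I * (3 * (I : ℝ) ^ (1 / 4 : ℝ)) * (8 * k) := by gcongr
        _ = Real.sqrt I * (I : ℝ) ^ (1 / 4 : ℝ) * (24 * k) := by ring
        _ ≤ Real.sqrt I * (I : ℝ) ^ (1 / 4 : ℝ) * (I : ℝ) ^ (1 / 4 : ℝ) := by gcongr
        _ = I := by rw [mul_assoc, ← h6]
    have h3 : Real.exp (-((3 * I : ℝ) ^ (-(1 / 4) : ℝ) * T)) ≤ 24 / (I : ℝ) ^ 2 := by
      have h4 : Real.exp (-((3 * I : ℝ) ^ (-(1 / 4) : ℝ) * T)) ≤ Real.exp (-Real.sqrt I) :=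
        Real.exp_le_exp.2 (by linarith)
      refine h4.trans ?_
      have h5 := Real.pow_div_factorial_le_exp (x := Real.sqrt I) (Real.sqrt_nonneg _) 4
      have h6 : Real.sqrt (I : ℝ) ^ 4 = (I : ℝ) ^ 2 := by
        calc Real.sqrt (I : ℝ) ^ 4 = (Real.sqrt (I : ℝ) ^ 2) ^ 2 := by ring
          _ = (I : ℝ) ^ 2 := by rw [Real.sq_sqrt hI0.le]
      rw [h6] at h5
      have h7 : ((Nat.factorial 4 : ℕ) : ℝ) = 24 := by norm_num [Nat.factorial]
      rw [h7] at h5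
      rw [Real.exp_neg, inv_eq_one_div, div_le_div_iff₀ (Real.exp_pos _) (by positivity)]
      rw [div_le_iff₀ (by norm_num)] at h5
      linarith
    calc μ (bad I) = ENNReal.ofReal (μ.real (bad I)) := by rw [ofReal_measureReal]
      _ ≤ ENNReal.ofReal (24 / (I : ℝ) ^ 2) := ENNReal.ofReal_le_ofReal (h1.trans h3)
  -- Borel-Cantelli
  have hsum : ∑' j, μ (bad (i₀ + j)) ≠ ⊤ := by
    have h1 : ∀ j, μ (bad (i₀ + j)) ≤ ENNReal.ofReal (24 * (1 / ((j + i₀ : ℕ) : ℝ) ^ 2)) := by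
      intro j
      refine (hbound (i₀ + j) (Nat.le_add_right _ _)).trans (le_of_eq ?_)
      rw [add_comm i₀ j]
      congr 1
      ring
    have h2 : Summable fun j : ℕ => 24 * (1 / ((j + i₀ : ℕ) : ℝ) ^ 2) := by
      refine Summable.mul_left 24 ?_
      exact (summable_nat_add_iff (f := fun n : ℕ => 1 / ((n : ℕ) : ℝ) ^ 2) i₀).2
        (Real.summable_one_div_nat_pow.2 (by norm_num))
    refine ne_top_of_le_ne_top ?_ (ENNReal.tsum_le_tsum h1)
    rw [← ENNReal.ofReal_tsum_of_nonneg (fun j => by positivity) h2]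
    exact ENNReal.ofReal_ne_top
  filter_upwards [ae_eventually_notMem hsum] with ω hω
  obtain ⟨j₀, hj₀⟩ := eventually_atTop.1 hω
  refine eventually_atTop.2 ⟨i₀ + j₀, fun m hm => ?_⟩
  have h1 := hj₀ (m - i₀) (by omega)
  have h2 : i₀ + (m - i₀) = m := by omega
  rw [h2, hbad] at h1
  simp only [Set.mem_ofPred_eq] at h1
  push Not at h1
  obtain ⟨t, ht, h3⟩ := h1
  have hm8 : 8 * k ≤ m := by
    have := le_max_right (max i₁ i₂) (8 * k)
    omega
  obtain ⟨h4, _, _, _, h5⟩ := (hJ m (by omega)).1 t ht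
  exact ⟨n m t, h4, h5 (fun i => Z i ω) h3⟩

theorem perturbed_unbounded [IsProbabilityMeasure μ] (Z : ℕ → Ω → ℕ) (hZ : ∀ i, Measurable (Z i))
    (hind : iIndepFun Z μ) (α : ℕ → ℕ) (hα : StrictMono α) (C : ℕ)
    (hC : ∀ i, α i ≤ C * (i + 1) ^ 2)
    (hpr : ∀ z : ℕ, ∀ ε : ℝ, 0 < ε → ∀ᶠ i : ℕ in atTop,
      (i : ℝ) ^ (-ε) ≤ μ.real {ω | Z i ω = z}) :
    ∀ᵐ ω ∂μ, ∀ K : ℕ, ∃ n, K < rep (Set.range fun i => α i + Z i ω) n := by
  have main : ∀ K : ℕ, ∀ᵐ ω ∂μ, ∀ᶠ m : ℕ in atTop, ∃ n ≥ m,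
      2 * (K + 1) ≤ rep (Set.range fun i => α i + Z i ω) n := by
    intro K
    refine perturbed Z hZ hind α hα C hC (K + 1) (by omega) ?_
    have : ∀ᶠ i : ℕ in atTop, ∀ z ∈ range (1728 * (C + 1) * (K + 1) ^ 2 + 1),
        (i : ℝ) ^ (-(1 / (8 * ((K + 1 : ℕ) : ℝ)))) ≤ μ.real {ω | Z i ω = z} :=
      (Finset.eventually_all _).2 fun z _ => hpr z _ (by positivity)
    filter_upwards [this] with i hi z hz
    exact hi z (mem_range.2 (by omega))
  filter_upwards [ae_all_iff.2 main] with ω hω K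
  obtain ⟨m, n, _, hn⟩ := (hω K).exists
  exact ⟨n, by omega⟩

end Pool.Agent.Y940.NP
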